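import Pool.Agent.Helper15_SIP.Q1
import Pool.Agent.Helper15_SIQ.All

/-!
# MP_021b97_an, Q1: `f^♯(T)` need not be well-defined

`X = (P¹)³`, `f(x, y, z) = (x, x y, z)` (a birational map).  The current `T = δ₀ ⊗ δ₀ ⊗ λ`, `λ` the
Lebesgue measure on the interval `[0, 1]` of the third factor, is a positive measure, that is, a
positive closed current of bidegree `(3, 3)`; it has no atoms, so all its Lelong numbers vanish,
`E(T)` is empty and the hypothesis of the question is satisfied.  Averaging over the group
`SU(2)³` with suitable kernels gives good approximation schemes by smooth forms (all the conditions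
(1)-(8) are proved, with `K⁻ = 0`) for which `f^*(K_n(T))` has different limits, according to the
speeds at which the kernels concentrate in the three factors.  So there is no `S` with
`f^♯(T) = S`.  Everything is proved for both conventions for the positivity of forms and currents,
weak (`w = true`) and strong (`w = false`).
-/

set_option autoImplicit false

open Pool.Agent.SIP

theorem Pool.Agent.Results.MP_021b97_an.SharpNotWellDefined.result :
    ∃ T : X1.Current 0, ∀ w : Bool,
      X1.Positive w T ∧ X1.Closed T ∧ (∀ u ∈ X1.U, X1.LelongZero T u) ∧
        ∀ S : X1.Current 0, ¬ X1.Sharp w f1L T S :=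
  Pool.Agent.SIP.q1 Pool.Agent.SIQ.H15.fin1S
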