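import Pool.Agent.Helper15_SIP.Q2

/-!
# MP_021b97_an, Q2: `f^♯(R)` need not be positive

`X = W × P¹`, `W = P(O ⊕ O(-1) ⊕ O(-1))` over `P¹` (a compact toric manifold; `dim X = 4`), `f` the
flop of `W` along its zero section `C` (times the identity), an involutive bimeromorphic map.  The
current `T = [C] ⊗ μ`, `μ` the Lebesgue measure on a fat Cantor set, is positive and closed, of
bidegree `(3, 3)`; all its Lelong numbers vanish, so `E(T)` is empty, the hypothesis on `f` is
satisfied and the Siu decomposition of `T` is `T = R`.  For every good approximation scheme `K_n`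
by `C²` forms `f^*(K_n(T))` converges to `-T`, so `f^♯(T)` is well-defined and
`f^♯(R) = f^♯(T) = -T`, which is not positive.  Everything is proved for both conventions for the
positivity of forms and currents, weak (`w = true`) and strong (`w = false`).
-/

set_option autoImplicit false

open Pool.Agent.SIP

theorem Pool.Agent.Results.MP_021b97_an.SiuPullBackNotPositive.result :
    ∃ T : X2.Current 1, ∀ w : Bool,
      X2.Positive w T ∧ X2.Closed T ∧ (∀ u ∈ X2.U, X2.LelongZero T u) ∧
        X2.Sharp w flopL T (X2.neg T) ∧ ¬ X2.Positive w (X2.neg T) :=
  Pool.Agent.SIP.q2
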